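import Mathlib

/-!
Order-preserving actions of groups on linear orders, fixed points of the completion of a
left-ordered group, and the rule which a surgery slope at least one imposes.
-/

set_option autoImplicit false

namespace Pool.Agent.Helper31.OrderAct

section Basic

variable {Ω : Type*} [LinearOrder Ω]

theorem pow_ge {X : Ω ≃o Ω} {s : Ω} (h : s ≤ X s) (n : ℕ) : s ≤ (X ^ n) s := by
  induction n with
  | zero => simp
  | succ n ih =>
    rw [pow_succ, RelIso.mul_apply]
    exact ih.trans ((X ^ n).monotone h)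

theorem pow_le {X : Ω ≃o Ω} {s : Ω} (h : X s ≤ s) (n : ℕ) : (X ^ n) s ≤ s := by
  induction n with
  | zero => simp
  | succ n ih =>
    rw [pow_succ, RelIso.mul_apply]
    exact ((X ^ n).monotone h).trans ih

theorem pow_gt {X : Ω ≃o Ω} {s : Ω} (h : s < X s) {n : ℕ} (hn : 0 < n) : s < (X ^ n) s := by
  obtain ⟨m, rfl⟩ := Nat.exists_eq_succ_of_ne_zero hn.ne'
  rw [Nat.succ_eq_add_one, pow_succ', RelIso.mul_apply]
  exact h.trans_le (X.monotone (pow_ge h.le m))

theorem pow_lt {X : Ω ≃o Ω} {s : Ω} (h : X s < s) {n : ℕ} (hn : 0 < n) : (X ^ n) s < s := by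
  obtain ⟨m, rfl⟩ := Nat.exists_eq_succ_of_ne_zero hn.ne'
  rw [Nat.succ_eq_add_one, pow_succ', RelIso.mul_apply]
  exact (X.monotone (pow_le h.le m)).trans_lt h

theorem of_pow_le {X : Ω ≃o Ω} {s : Ω} {n : ℕ} (hn : 0 < n) (h : (X ^ n) s ≤ s) : X s ≤ s := by
  by_contra hc
  exact absurd h (not_le.mpr (pow_gt (not_le.mp hc) hn))

theorem of_pow_ge {X : Ω ≃o Ω} {s : Ω} {n : ℕ} (hn : 0 < n) (h : s ≤ (X ^ n) s) : s ≤ X s := by
  by_contra hc
  exact absurd h (not_le.mpr (pow_lt (not_le.mp hc) hn))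

theorem inv_le_of_ge {X : Ω ≃o Ω} {s : Ω} (h : s ≤ X s) : X⁻¹ s ≤ s := by
  have := (X⁻¹).monotone h
  rwa [RelIso.inv_apply_self] at this

theorem inv_ge_of_le {X : Ω ≃o Ω} {s : Ω} (h : X s ≤ s) : s ≤ X⁻¹ s := by
  have := (X⁻¹).monotone h
  rwa [RelIso.inv_apply_self] at this

theorem inv_lt_of_gt {X : Ω ≃o Ω} {s : Ω} (h : s < X s) : X⁻¹ s < s := by
  have := (X⁻¹).strictMono h
  rwa [RelIso.inv_apply_self] at this

theorem inv_gt_of_lt {X : Ω ≃o Ω} {s : Ω} (h : X s < s) : s < X⁻¹ s := by
  have := (X⁻¹).strictMono h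
  rwa [RelIso.inv_apply_self] at this

/-- The rule satisfied by a meridian `X` and longitude `L` filled along a slope at least one. -/
def Rule (X L : Ω ≃o Ω) : Prop :=
  ∀ s : Ω, (s ≤ X s → X (L s) ≤ s) ∧ (X s ≤ s → s ≤ X (L s))

theorem rule_of_rel {X L : Ω ≃o Ω} (hc : X * L = L * X) {p q : ℕ} (hq : 0 < q) (hpq : q ≤ p)
    (h : X ^ p * L ^ q = 1) : Rule X L := by
  have hcomm : Commute X L := hc
  have h1 : (X * L) ^ q * X ^ (p - q) = 1 := by
    rw [hcomm.mul_pow, ← h]
    have : X ^ p = X ^ (p - q) * X ^ q := by rw [← pow_add, Nat.sub_add_cancel hpq]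
    rw [this]
    have c1 : Commute (X ^ q * L ^ q) (X ^ (p - q)) := by
      apply Commute.mul_left
      · exact (Commute.refl X).pow_pow _ _
      · exact (hcomm.symm).pow_pow _ _
    rw [c1.eq, mul_assoc]
  have h2 : (X * L) ^ q = (X ^ (p - q))⁻¹ := eq_inv_of_mul_eq_one_left h1
  intro s
  constructor
  · intro hs
    have : ((X * L) ^ q) s ≤ s := by
      rw [h2]
      exact inv_le_of_ge (pow_ge hs _)
    exact of_pow_le hq this
  · intro hs
    have : s ≤ ((X * L) ^ q) s := by
      rw [h2]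
      exact inv_ge_of_le (pow_le hs _)
    exact of_pow_ge hq this

end Basic

/-- A group is left-orderable if it is nontrivial and carries a total order invariant under
left multiplication. -/
def LeftOrderable (G : Type*) [Group G] : Prop :=
  Nontrivial G ∧ ∃ _ : LinearOrder G, ∀ f g h : G, g ≤ h → f * g ≤ f * h

section Completion

variable {G : Type*} [Group G] [LinearOrder G]

/-- Left multiplication as an order isomorphism. -/
def leftIso (hmul : ∀ f g h : G, g ≤ h → f * g ≤ f * h) (f : G) : G ≃o G where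
  toEquiv := Equiv.mulLeft f
  map_rel_iff' := by
    intro a b
    constructor
    · intro h
      have := hmul f⁻¹ _ _ h
      simpa using this
    · intro h
      exact hmul f _ _ h

@[simp] theorem leftIso_apply (hmul : ∀ f g h : G, g ≤ h → f * g ≤ f * h) (f g : G) :
    leftIso hmul f g = f * g := rfl

/-- Left multiplication as a homomorphism to the order automorphisms of the group. -/
def leftHom (hmul : ∀ f g h : G, g ≤ h → f * g ≤ f * h) : G →* (G ≃o G) where
  toFun := leftIso hmul
  map_one' := by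
    ext g
    simp
  map_mul' := by
    intro a b
    ext g
    simp [mul_assoc]

/-- The action on lower sets. -/
def cutHom (hmul : ∀ f g h : G, g ≤ h → f * g ≤ f * h) : G →* (LowerSet G ≃o LowerSet G) where
  toFun := fun f => LowerSet.map (leftIso hmul f)
  map_one' := by
    apply RelIso.ext
    intro L
    apply SetLike.ext
    intro g
    rw [LowerSet.mem_map]
    change (1 : G)⁻¹ * g ∈ L ↔ g ∈ L
    simp
  map_mul' := by
    intro a b
    apply RelIso.ext
    intro L
    apply SetLike.ext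
    intro g
    rw [LowerSet.mem_map, RelIso.mul_apply, LowerSet.mem_map, LowerSet.mem_map]
    change (a * b)⁻¹ * g ∈ L ↔ b⁻¹ * (a⁻¹ * g) ∈ L
    rw [mul_inv_rev, mul_assoc]

theorem mem_cutHom (hmul : ∀ f g h : G, g ≤ h → f * g ≤ f * h) (f g : G) (L : LowerSet G) :
    g ∈ cutHom hmul f L ↔ f⁻¹ * g ∈ L := by
  change g ∈ LowerSet.map (leftIso hmul f) L ↔ _
  rw [LowerSet.mem_map]
  rfl

/-- If a generator `x` has the property that every cut it fixes is fixed by all generators,
then `x` moves every element of the group in the same direction. -/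
theorem sign_const (hmul : ∀ f g h : G, g ≤ h → f * g ≤ f * h) [Nontrivial G] {S : Set G}
    (hS : Subgroup.closure S = ⊤) {x : G}
    (hfix : ∀ L : LowerSet G, cutHom hmul x L = L → ∀ y ∈ S, cutHom hmul y L = L) :
    (∀ h : G, h < x * h) ∨ (∀ h : G, x * h < h) := by
  -- a cut fixed by `x` is trivial
  have hinv : ∀ L : LowerSet G, cutHom hmul x L = L → (∃ g, g ∈ L) → ∀ g, g ∈ L := by
    intro L hL hne g
    have hall : ∀ f : G, cutHom hmul f L = L := by
      intro f
      have hf : f ∈ Subgroup.closure S := by rw [hS]; trivial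
      induction hf using Subgroup.closure_induction with
      | mem y hy => exact hfix L hL y hy
      | one => simp
      | mul a b _ _ ha hb => rw [map_mul, RelIso.mul_apply, hb, ha]
      | inv a _ ha =>
        rw [map_inv]
        conv_lhs => rw [← ha]
        rw [RelIso.inv_apply_self]
    obtain ⟨g₀, hg₀⟩ := hne
    have h1 := hall (g * g₀⁻¹)
    rw [← h1, mem_cutHom]
    simpa using hg₀
  have hx1 : x ≠ 1 := by
    intro hx
    obtain ⟨a, b, hab⟩ := exists_pair_ne G
    have h1 := hinv (LowerSet.Iic a) (by rw [hx, map_one]; rfl) ⟨a, le_refl a⟩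
    have h2 := hinv (LowerSet.Iic b) (by rw [hx, map_one]; rfl) ⟨b, le_refl b⟩
    exact hab (le_antisymm (h2 a) (h1 b))
  have hne : ∀ h : G, x * h ≠ h := by
    intro h hh
    apply hx1
    simpa using hh
  by_contra hcon
  push Not at hcon
  obtain ⟨⟨h2, hh2⟩, ⟨h1, hh1⟩⟩ := hcon
  have hh2' : x * h2 < h2 := lt_of_le_of_ne hh2 (hne h2)
  have hh1' : h1 < x * h1 := lt_of_le_of_ne hh1 (hne h1).symm
  have hmono : ∀ f g h : G, g < h → f * g < f * h := by
    intro f g h hgh
    exact lt_of_le_of_ne (hmul f g h hgh.le) (by intro he; exact hgh.ne (mul_left_cancel he))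
  have hinv2 : h2 < x⁻¹ * h2 := by
    have := hmono x⁻¹ _ _ hh2'
    rwa [← mul_assoc, inv_mul_cancel, one_mul] at this
  -- general: if `h < y * h` then the lower set generated by the `y ^ n * h` is fixed by `y`
  have gen : ∀ y h : G, h < y * h → (cutHom hmul y = cutHom hmul x ∨
      cutHom hmul y = (cutHom hmul x)⁻¹) → ∀ f : G, ∃ n : ℕ, f ≤ y ^ n * h := by
    intro y h hyh hy
    have inc : ∀ n : ℕ, y ^ n * h < y ^ (n + 1) * h := by
      intro n
      rw [pow_succ, mul_assoc]
      exact hmono _ _ _ hyh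
    let L : LowerSet G := ⟨{f | ∃ n : ℕ, f ≤ y ^ n * h}, by
      rintro a b hba ⟨n, hn⟩
      exact ⟨n, hba.trans hn⟩⟩
    have hL : cutHom hmul y L = L := by
      apply SetLike.ext
      intro g
      rw [mem_cutHom]
      constructor
      · rintro ⟨n, hn⟩
        refine ⟨n + 1, ?_⟩
        have := hmul y _ _ hn
        rw [← mul_assoc, mul_inv_cancel, one_mul, ← mul_assoc, ← pow_succ'] at this
        exact this
      · rintro ⟨n, hn⟩
        refine ⟨n, ?_⟩
        have h3 := hmul y⁻¹ _ _ (hn.trans (inc n).le)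
        rw [pow_succ', mul_assoc, ← mul_assoc y⁻¹ y, inv_mul_cancel, one_mul] at h3
        exact h3
    have hL' : cutHom hmul x L = L := by
      rcases hy with hy | hy
      · rw [← hy]; exact hL
      · have h3 : (cutHom hmul x)⁻¹ L = L := by rw [← hy]; exact hL
        have h4 := congrArg (cutHom hmul x) h3
        rw [RelIso.apply_inv_self] at h4
        exact h4.symm
    exact hinv L hL' ⟨h, 0, by simp⟩
  have top1 := gen x h1 hh1' (Or.inl rfl)
  have top2 := gen x⁻¹ h2 hinv2 (Or.inr (map_inv _ _))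
  have inc : ∀ n : ℕ, x ^ n * h1 ≤ x ^ (n + 1) * h1 := by
    intro n
    rw [pow_succ, mul_assoc]
    exact hmul _ _ _ hh1
  have incm : Monotone (fun n : ℕ => x ^ n * h1) := monotone_nat_of_le_succ inc
  obtain ⟨m, hm⟩ := top2 h1
  have hm' : x ^ m * h1 ≤ h2 := by
    have := hmul (x ^ m) _ _ hm
    rwa [inv_pow, ← mul_assoc, mul_inv_cancel, one_mul] at this
  have incx : ∀ n : ℕ, x⁻¹ ^ n * h2 ≤ x⁻¹ ^ (n + 1) * h2 := by
    intro n
    rw [pow_succ, mul_assoc]
    exact hmul _ _ _ hinv2.le
  have incxm : Monotone (fun n : ℕ => x⁻¹ ^ n * h2) := monotone_nat_of_le_succ incx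
  obtain ⟨k, hk⟩ := top1 (x⁻¹ * h2)
  have h4 : x⁻¹ * h2 ≤ x ^ (max k m) * h1 := hk.trans (incm (le_max_left k m))
  have h5 : h1 ≤ x⁻¹ ^ (max k m) * h2 := hm.trans (incxm (le_max_right k m))
  have h6 : x ^ (max k m) * h1 ≤ h2 := by
    have := hmul (x ^ (max k m)) _ _ h5
    rwa [inv_pow, ← mul_assoc, mul_inv_cancel, one_mul] at this
  exact absurd (hinv2.trans_le (h4.trans h6)) (lt_irrefl _)

end Completion

end Pool.Agent.Helper31.OrderAct
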