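import Mathlib
import Pool.Agent.Helper31.OrderAct

/-!
Surgeries on the Borromean rings with all three slopes at least one.
-/

set_option autoImplicit false

namespace Pool.Agent.Helper31.Borromean

open Pool.Agent.Helper31.OrderAct

section Local

variable {Ω : Type*} [LinearOrder Ω]

/-- The three rules for the Borromean rings. -/
structure Rules (X Y Z : Ω ≃o Ω) : Prop where
  x1 : ∀ s, s ≤ X s → X (Y⁻¹ (Z (Y (Z⁻¹ s)))) ≤ s
  x2 : ∀ s, X s ≤ s → s ≤ X (Y⁻¹ (Z (Y (Z⁻¹ s))))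
  y1 : ∀ s, s ≤ Y s → Y (Z⁻¹ (X (Z (X⁻¹ s)))) ≤ s
  y2 : ∀ s, Y s ≤ s → s ≤ Y (Z⁻¹ (X (Z (X⁻¹ s))))
  z1 : ∀ s, s ≤ Z s → Z (X⁻¹ (Y (X (Y⁻¹ s)))) ≤ s
  z2 : ∀ s, Z s ≤ s → s ≤ Z (X⁻¹ (Y (X (Y⁻¹ s))))

variable {X Y Z : Ω ≃o Ω}

theorem Rules.cyc (h : Rules X Y Z) : Rules Y Z X :=
  ⟨h.y1, h.y2, h.z1, h.z2, h.x1, h.x2⟩

theorem Rules.dual (h : Rules X Y Z) :
    Rules (Ω := Ωᵒᵈ) (OrderIso.dual X) (OrderIso.dual Y) (OrderIso.dual Z) :=
  ⟨h.x2, h.x1, h.y2, h.y1, h.z2, h.z1⟩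

theorem fixY_not_lt (h : Rules X Y Z) {s : Ω} (hX : X s = s) : ¬ s < Y s := by
  intro hY
  have hXi : X⁻¹ s = s := by
    conv_lhs => rw [← hX]
    rw [RelIso.inv_apply_self]
  rcases lt_trichotomy (Z s) s with hZ | hZ | hZ
  · -- Z s < s < Y s
    have h1 := h.z2 s hZ.le
    have h2 : Z⁻¹ s ≤ X⁻¹ (Y (X (Y⁻¹ s))) := by
      have := (Z⁻¹).monotone h1
      rwa [RelIso.inv_apply_self] at this
    have h3 : X (Z⁻¹ s) ≤ Y (X (Y⁻¹ s)) := by
      have := X.monotone h2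
      rwa [RelIso.apply_inv_self] at this
    have hZi : s < Z⁻¹ s := inv_gt_of_lt hZ
    have hYi : Y⁻¹ s < s := inv_lt_of_gt hY
    have hv : s < X (Z⁻¹ s) := by
      have := X.strictMono hZi
      rwa [hX] at this
    have h4 : X (Y⁻¹ s) < s := by
      have := X.strictMono hYi
      rwa [hX] at this
    have h5 : Y⁻¹ (X (Z⁻¹ s)) ≤ X (Y⁻¹ s) := by
      have := (Y⁻¹).monotone h3
      rwa [RelIso.inv_apply_self] at this
    have h6 : Y⁻¹ (X (Z⁻¹ s)) < X (Z⁻¹ s) := (h5.trans_lt h4).trans hv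
    have h7 : X (Z⁻¹ s) ≤ Y (X (Z⁻¹ s)) := by
      have := Y.monotone h6.le
      rwa [RelIso.apply_inv_self] at this
    have h8 := h.y1 _ h7
    rw [RelIso.inv_apply_self, RelIso.apply_inv_self, hX] at h8
    have h9 : Z⁻¹ s ≤ Y⁻¹ (X (Z⁻¹ s)) := by
      have := (Y⁻¹).monotone h8
      rwa [RelIso.inv_apply_self] at this
    exact absurd (hZi.trans_le (h9.trans (h5.trans h4.le))) (lt_irrefl _)
  · -- Z s = s
    have hZi : Z⁻¹ s = s := by
      conv_lhs => rw [← hZ]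
      rw [RelIso.inv_apply_self]
    have h1 := h.y1 s hY.le
    rw [hXi, hZ, hX, hZi] at h1
    exact absurd h1 (not_le.mpr hY)
  · -- s < Z s
    have h1 := h.y1 s hY.le
    rw [hXi] at h1
    have hYi : Y⁻¹ s < s := inv_lt_of_gt hY
    have h2 : X (Z s) ≤ Z (Y⁻¹ s) := by
      have a := (Y⁻¹).monotone h1
      rw [RelIso.inv_apply_self] at a
      have b := Z.monotone a
      rwa [RelIso.apply_inv_self] at b
    have h3 : s < X (Z s) := by
      have := X.strictMono hZ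
      rwa [hX] at this
    have h4 : Z⁻¹ s < Y⁻¹ s := by
      have := (Z⁻¹).strictMono (h3.trans_le h2)
      rwa [RelIso.inv_apply_self] at this
    have h5 : Y (Z⁻¹ s) = Z⁻¹ (Y s) := by
      have a := h.x1 s hX.ge
      have b := h.x2 s hX.le
      have c : X (Y⁻¹ (Z (Y (Z⁻¹ s)))) = s := le_antisymm a b
      have d : Y⁻¹ (Z (Y (Z⁻¹ s))) = s := by
        have := congrArg (⇑(X⁻¹)) c
        rwa [RelIso.inv_apply_self, hXi] at this
      have e : Z (Y (Z⁻¹ s)) = Y s := by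
        have := congrArg Y d
        rwa [RelIso.apply_inv_self] at this
      have f := congrArg (⇑(Z⁻¹)) e
      rwa [RelIso.inv_apply_self] at f
    have h6 : Z⁻¹ (Y s) < s := by
      rw [← h5]
      have := Y.strictMono h4
      rwa [RelIso.apply_inv_self] at this
    have h7 : Y s ≤ Z (Y s) := by
      have := Z.monotone ((h6.trans hY).le)
      rwa [RelIso.apply_inv_self] at this
    have h8 := h.z1 _ h7
    rw [RelIso.inv_apply_self, hX] at h8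
    have h9 : X⁻¹ (Y s) ≤ Z⁻¹ (Y s) := by
      have := (Z⁻¹).monotone h8
      rwa [RelIso.inv_apply_self] at this
    have h10 : Y s < s := by
      have := X.strictMono (h9.trans_lt h6)
      rwa [RelIso.apply_inv_self, hX] at this
    exact absurd h10 (not_lt.mpr hY.le)

theorem fixY (h : Rules X Y Z) {s : Ω} (hX : X s = s) : Y s = s := by
  rcases lt_trichotomy (Y s) s with h1 | h1 | h1
  · exact absurd h1 (fixY_not_lt (Ω := Ωᵒᵈ) h.dual (s := s) hX)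
  · exact h1
  · exact absurd h1 (fixY_not_lt h hX)

theorem fixZ (h : Rules X Y Z) {s : Ω} (hX : X s = s) : Z s = s :=
  fixY h.cyc (fixY h hX)

theorem no_mixed (h : Rules X Y Z) (p : Ω) (hY : ∀ s, s < Y s) (hZ : ∀ s, Z s < s) : False := by
  have h1 := h.y1 (X (Z⁻¹ p)) (hY _).le
  rw [RelIso.inv_apply_self, RelIso.apply_inv_self] at h1
  have h2 : X (Z⁻¹ p) ≤ Y (X (Y⁻¹ p)) := by
    have a := (Z⁻¹).monotone (h.z2 p (hZ p).le)
    rw [RelIso.inv_apply_self] at a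
    have b := X.monotone a
    rwa [RelIso.apply_inv_self] at b
  have h3 : Z⁻¹ (X p) ≤ X (Y⁻¹ p) := Y.le_iff_le.mp (h1.trans h2)
  have h4 : X p < Z⁻¹ (X p) := inv_gt_of_lt (hZ _)
  have h5 : X (Y⁻¹ p) < X p := X.strictMono (inv_lt_of_gt (hY p))
  exact absurd (h4.trans_le (h3.trans h5.le)) (lt_irrefl _)

theorem lt_of_pos (h : Rules X Y Z) (hX : ∀ s, s < X s) (hY : ∀ s, s < Y s) (s : Ω) :
    X s < Y s := by
  have h1 := h.x1 (X s) (hX _).le
  have h2 : Y⁻¹ (Z (Y (Z⁻¹ (X s)))) ≤ s := X.le_iff_le.mp h1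
  have h3 : Z (Y (Z⁻¹ (X s))) ≤ Y s := by
    have := Y.monotone h2
    rwa [RelIso.apply_inv_self] at this
  have h4 : X s < Z (Y (Z⁻¹ (X s))) := by
    have := Z.strictMono (hY (Z⁻¹ (X s)))
    rwa [RelIso.apply_inv_self] at this
  exact h4.trans_le h3

theorem no_pos (h : Rules X Y Z) (p : Ω) (hX : ∀ s, s < X s) (hY : ∀ s, s < Y s)
    (hZ : ∀ s, s < Z s) : False := by
  have h1 := lt_of_pos h hX hY p
  have h2 := lt_of_pos h.cyc hY hZ p
  have h3 := lt_of_pos h.cyc.cyc hZ hX p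
  exact absurd (h1.trans (h2.trans h3)) (lt_irrefl _)

theorem no_signs (h : Rules X Y Z) (p : Ω) (hX : (∀ s, s < X s) ∨ (∀ s, X s < s))
    (hY : (∀ s, s < Y s) ∨ (∀ s, Y s < s)) (hZ : (∀ s, s < Z s) ∨ (∀ s, Z s < s)) : False := by
  rcases hX with hX | hX <;> rcases hY with hY | hY <;> rcases hZ with hZ | hZ
  · exact no_pos h p hX hY hZ
  · exact no_mixed h p hY hZ
  · exact no_mixed h.cyc.cyc p hX hY
  · exact no_mixed h.cyc.cyc p hX hY
  · exact no_mixed h.cyc p hZ hX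
  · exact no_mixed h p hY hZ
  · exact no_mixed h.cyc p hZ hX
  · exact no_pos (Ω := Ωᵒᵈ) h.dual p hX hY hZ

end Local

section Group

variable {G : Type*} [Group G]

/-- The surgery relations for a meridian and a longitude. -/
def SlopeRel (x l : G) (p q : ℕ) : Prop := x * l = l * x ∧ x ^ p * l ^ q = 1

theorem rules_of_rel {Ω : Type*} [LinearOrder Ω] (ρ : G →* (Ω ≃o Ω)) {x y z : G}
    {px qx py qy pz qz : ℕ} (hqx : 0 < qx) (hpx : qx ≤ px) (hqy : 0 < qy) (hpy : qy ≤ py)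
    (hqz : 0 < qz) (hpz : qz ≤ pz)
    (hx : SlopeRel x (y⁻¹ * z * y * z⁻¹) px qx)
    (hy : SlopeRel y (z⁻¹ * x * z * x⁻¹) py qy)
    (hz : SlopeRel z (x⁻¹ * y * x * y⁻¹) pz qz) : Rules (ρ x) (ρ y) (ρ z) := by
  have gen : ∀ {u l : G} {p q : ℕ}, 0 < q → q ≤ p → SlopeRel u l p q → Rule (ρ u) (ρ l) := by
    intro u l p q hq hpq h
    refine rule_of_rel (p := p) (q := q) ?_ hq hpq ?_
    · rw [← map_mul, ← map_mul, h.1]
    · rw [← map_pow, ← map_pow, ← map_mul, h.2, map_one]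
  have r1 := gen hqx hpx hx
  have r2 := gen hqy hpy hy
  have r3 := gen hqz hpz hz
  refine ⟨fun s hs => ?_, fun s hs => ?_, fun s hs => ?_, fun s hs => ?_, fun s hs => ?_,
    fun s hs => ?_⟩
  · simpa [map_mul, map_inv] using (r1 s).1 hs
  · simpa [map_mul, map_inv] using (r1 s).2 hs
  · simpa [map_mul, map_inv] using (r2 s).1 hs
  · simpa [map_mul, map_inv] using (r2 s).2 hs
  · simpa [map_mul, map_inv] using (r3 s).1 hs
  · simpa [map_mul, map_inv] using (r3 s).2 hs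

/-- A group generated by three elements satisfying the Borromean surgery relations with all
slopes at least one is not left-orderable. -/
theorem not_leftOrderable {x y z : G} (hgen : Subgroup.closure {x, y, z} = (⊤ : Subgroup G))
    {px qx py qy pz qz : ℕ} (hqx : 0 < qx) (hpx : qx ≤ px) (hqy : 0 < qy) (hpy : qy ≤ py)
    (hqz : 0 < qz) (hpz : qz ≤ pz)
    (hx : SlopeRel x (y⁻¹ * z * y * z⁻¹) px qx)
    (hy : SlopeRel y (z⁻¹ * x * z * x⁻¹) py qy)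
    (hz : SlopeRel z (x⁻¹ * y * x * y⁻¹) pz qz) : ¬ LeftOrderable G := by
  rintro ⟨hnt, hord, hmul⟩
  have R1 := rules_of_rel (cutHom hmul) hqx hpx hqy hpy hqz hpz hx hy hz
  have R2 := rules_of_rel (leftHom hmul) hqx hpx hqy hpy hqz hpz hx hy hz
  have sx := sign_const hmul hgen (x := x) (by
    intro L hL w hw
    rcases hw with rfl | rfl | rfl
    · exact hL
    · exact fixY R1 hL
    · exact fixZ R1 hL)
  have sy := sign_const hmul hgen (x := y) (by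
    intro L hL w hw
    rcases hw with rfl | rfl | rfl
    · exact fixZ R1.cyc hL
    · exact hL
    · exact fixY R1.cyc hL)
  have sz := sign_const hmul hgen (x := z) (by
    intro L hL w hw
    rcases hw with rfl | rfl | rfl
    · exact fixY R1.cyc.cyc hL
    · exact fixZ R1.cyc.cyc hL
    · exact hL)
  exact no_signs R2 1 sx sy sz

/-- The surgery relations with integer exponents. -/
theorem slopeRel_of_zpow {x l : G} {p q : ℤ} (hq : 1 ≤ q) (hpq : q ≤ p)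
    (hc : x * l = l * x) (h : x ^ p * l ^ q = 1) :
    ∃ p' q' : ℕ, 0 < q' ∧ q' ≤ p' ∧ SlopeRel x l p' q' := by
  refine ⟨p.toNat, q.toNat, by omega, by omega, hc, ?_⟩
  rw [← zpow_natCast, ← zpow_natCast, Int.toNat_of_nonneg (by omega),
    Int.toNat_of_nonneg (by omega)]
  exact h

theorem closure_mirror {x y z : G} (hgen : Subgroup.closure {x, y, z} = (⊤ : Subgroup G)) :
    Subgroup.closure {x, z * y * z⁻¹, z⁻¹} = (⊤ : Subgroup G) := by
  rw [eq_top_iff, ← hgen, Subgroup.closure_le]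
  have hx : x ∈ Subgroup.closure {x, z * y * z⁻¹, z⁻¹} := Subgroup.subset_closure (by simp)
  have hy : z * y * z⁻¹ ∈ Subgroup.closure {x, z * y * z⁻¹, z⁻¹} :=
    Subgroup.subset_closure (by simp)
  have hz : z⁻¹ ∈ Subgroup.closure {x, z * y * z⁻¹, z⁻¹} := Subgroup.subset_closure (by simp)
  rintro w (rfl | rfl | rfl)
  · exact hx
  · have := mul_mem (mul_mem hz hy) (inv_mem hz)
    have e : z⁻¹ * (z * w * z⁻¹) * z⁻¹⁻¹ = w := by group
    rw [e] at this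
    exact this
  · have := inv_mem hz
    rwa [inv_inv] at this

/-- The same with all slopes at least one or all at most minus one. -/
theorem not_leftOrderable_int {x y z : G}
    (hgen : Subgroup.closure {x, y, z} = (⊤ : Subgroup G))
    {px qx py qy pz qz : ℤ} (hqx : 1 ≤ qx) (hqy : 1 ≤ qy) (hqz : 1 ≤ qz)
    (hslopes : (qx ≤ px ∧ qy ≤ py ∧ qz ≤ pz) ∨ (px ≤ -qx ∧ py ≤ -qy ∧ pz ≤ -qz))
    (cx : x * (y⁻¹ * z * y * z⁻¹) = (y⁻¹ * z * y * z⁻¹) * x)
    (cy : y * (z⁻¹ * x * z * x⁻¹) = (z⁻¹ * x * z * x⁻¹) * y)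
    (cz : z * (x⁻¹ * y * x * y⁻¹) = (x⁻¹ * y * x * y⁻¹) * z)
    (hx : x ^ px * (y⁻¹ * z * y * z⁻¹) ^ qx = 1)
    (hy : y ^ py * (z⁻¹ * x * z * x⁻¹) ^ qy = 1)
    (hz : z ^ pz * (x⁻¹ * y * x * y⁻¹) ^ qz = 1) : ¬ LeftOrderable G := by
  rcases hslopes with ⟨h1, h2, h3⟩ | ⟨h1, h2, h3⟩
  · obtain ⟨p1, q1, a1, b1, r1⟩ := slopeRel_of_zpow hqx h1 cx hx
    obtain ⟨p2, q2, a2, b2, r2⟩ := slopeRel_of_zpow hqy h2 cy hy
    obtain ⟨p3, q3, a3, b3, r3⟩ := slopeRel_of_zpow hqz h3 cz hz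
    exact not_leftOrderable hgen a1 b1 a2 b2 a3 b3 r1 r2 r3
  · -- the mirror images of the three longitudes
    have e1 : (z * y * z⁻¹)⁻¹ * z⁻¹ * (z * y * z⁻¹) * z⁻¹⁻¹ = (y⁻¹ * z * y * z⁻¹)⁻¹ := by group
    have e2 : z⁻¹⁻¹ * x * z⁻¹ * x⁻¹ = z * (z⁻¹ * x * z * x⁻¹)⁻¹ * z⁻¹ := by group
    have e3 : x⁻¹ * (z * y * z⁻¹) * x * (z * y * z⁻¹)⁻¹ = x⁻¹ * y * x * y⁻¹ := by
      -- conjugate by `z` and use that `y` commutes with its longitude
      have key : z⁻¹ * (x⁻¹ * (z * y * z⁻¹) * x * (z * y * z⁻¹)⁻¹) * z = x⁻¹ * y * x * y⁻¹ := by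
        have a1 : z⁻¹ * (x⁻¹ * (z * y * z⁻¹) * x * (z * y * z⁻¹)⁻¹) * z =
            x⁻¹ * ((z⁻¹ * x * z * x⁻¹)⁻¹ * y * (z⁻¹ * x * z * x⁻¹)) * x * y⁻¹ := by group
        have a2 : (z⁻¹ * x * z * x⁻¹)⁻¹ * y * (z⁻¹ * x * z * x⁻¹) = y := by
          rw [mul_assoc, cy, ← mul_assoc, inv_mul_cancel, one_mul]
        rw [a1, a2]
      have a3 : x⁻¹ * (z * y * z⁻¹) * x * (z * y * z⁻¹)⁻¹ =
          z * (z⁻¹ * (x⁻¹ * (z * y * z⁻¹) * x * (z * y * z⁻¹)⁻¹) * z) * z⁻¹ := by group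
      rw [a3, key, cz]
      group
    have hneg : ∀ {u l : G} {p q : ℤ}, u * l = l * u → u ^ p * l ^ q = 1 →
        u ^ (-p) * (l⁻¹) ^ q = 1 := by
      intro u l p q hc h
      have hcomm : Commute u l := hc
      rw [zpow_neg, inv_zpow, ← mul_inv_rev, ((hcomm.zpow_zpow p q).eq).symm, h, inv_one]
    have hinvc : ∀ {u l : G}, u * l = l * u → u * l⁻¹ = l⁻¹ * u := by
      intro u l hc
      exact (Commute.inv_right hc : Commute u l⁻¹)
    have hinvc' : ∀ {u l : G}, u * l = l * u → u⁻¹ * l = l * u⁻¹ := by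
      intro u l hc
      exact (Commute.inv_left hc : Commute u⁻¹ l)
    obtain ⟨p1, q1, a1, b1, r1⟩ := slopeRel_of_zpow (x := x)
      (l := (z * y * z⁻¹)⁻¹ * z⁻¹ * (z * y * z⁻¹) * z⁻¹⁻¹) (p := -px) hqx (by omega)
      (by rw [e1]; exact hinvc cx) (by rw [e1]; exact hneg cx hx)
    obtain ⟨p2, q2, a2, b2, r2⟩ := slopeRel_of_zpow (x := z * y * z⁻¹)
      (l := z⁻¹⁻¹ * x * z⁻¹ * x⁻¹) (p := -py) hqy (by omega)
      (by
        rw [e2]
        have a := hinvc cy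
        have b1 : z * y * z⁻¹ * (z * (z⁻¹ * x * z * x⁻¹)⁻¹ * z⁻¹) =
          z * (y * (z⁻¹ * x * z * x⁻¹)⁻¹) * z⁻¹ := by group
        have b2 : z * (z⁻¹ * x * z * x⁻¹)⁻¹ * z⁻¹ * (z * y * z⁻¹) =
          z * ((z⁻¹ * x * z * x⁻¹)⁻¹ * y) * z⁻¹ := by group
        rw [b1, b2, a])
      (by
        rw [e2]
        have a := hneg cy hy
        rw [conj_zpow, conj_zpow]
        have b1 : z * y ^ (-py) * z⁻¹ * (z * (z⁻¹ * x * z * x⁻¹)⁻¹ ^ qy * z⁻¹) =
          z * (y ^ (-py) * (z⁻¹ * x * z * x⁻¹)⁻¹ ^ qy) * z⁻¹ := by group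
        rw [b1, a]
        group)
    obtain ⟨p3, q3, a3, b3, r3⟩ := slopeRel_of_zpow (x := z⁻¹)
      (l := x⁻¹ * (z * y * z⁻¹) * x * (z * y * z⁻¹)⁻¹) (p := -pz) hqz (by omega)
      (by rw [e3]; exact hinvc' cz)
      (by
        rw [e3, inv_zpow', neg_neg]
        exact hz)
    exact not_leftOrderable (closure_mirror hgen) a1 b1 a2 b2 a3 b3 r1 r2 r3

end Group

end Pool.Agent.Helper31.Borromean
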