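import Mathlib
import Pool.Agent.Helper31.OrderAct

/-!
Chains of positive rational twists on a once-punctured torus, closed up by the hyperelliptic
involution.
-/

set_option autoImplicit false

namespace Pool.Agent.Helper31.TwistChain

open Pool.Agent.Helper31.OrderAct

section Chain

variable {Γ : Type*} [Group Γ]

/-- `m` is a nonnegative rational power of `a`. -/
def RatPow (m a : Γ) : Prop :=
  m * a = a * m ∧ ∃ u v : ℕ, 0 < u ∧ m ^ u = a ^ v

theorem RatPow.conj {m a : Γ} (h : RatPow m a) (g : Γ) :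
    RatPow (g * m * g⁻¹) (g * a * g⁻¹) := by
  obtain ⟨hc, u, v, hu, huv⟩ := h
  refine ⟨?_, u, v, hu, ?_⟩
  · have e1 : g * m * g⁻¹ * (g * a * g⁻¹) = g * (m * a) * g⁻¹ := by group
    have e2 : g * a * g⁻¹ * (g * m * g⁻¹) = g * (a * m) * g⁻¹ := by group
    rw [e1, e2, hc]
  · rw [conj_pow, conj_pow, huv]

theorem RatPow.inv {m a : Γ} (h : RatPow m a) : RatPow m⁻¹ a⁻¹ := by
  obtain ⟨hc, u, v, hu, huv⟩ := h
  refine ⟨?_, u, v, hu, ?_⟩
  · rw [← mul_inv_rev, ← mul_inv_rev, hc]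
  · rw [inv_pow, inv_pow, huv]

/-- A positive rational twist, acting on the pair of generators of the fibre group. -/
inductive Step : Γ × Γ → Γ × Γ → Prop
  | twistA (a b m : Γ) : RatPow m a → Step (a, b) (a, b * m)
  | twistB (a b k : Γ) : RatPow k b → Step (a, b) (a * k, b)

/-- A finite composition of positive rational twists. -/
def Chain (p q : Γ × Γ) : Prop := Relation.ReflTransGen Step p q

/-- Conjugation of pairs. -/
def cj (g : Γ) (p : Γ × Γ) : Γ × Γ := (g * p.1 * g⁻¹, g * p.2 * g⁻¹)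

/-- The rotation by a quarter turn. -/
def rot (p : Γ × Γ) : Γ × Γ := (p.2⁻¹, p.2 * p.1 * p.2⁻¹)

theorem Step.cj {p q : Γ × Γ} (h : Step p q) (g : Γ) : Step (cj g p) (cj g q) := by
  cases h with
  | twistA a b m hm =>
    have := Step.twistA (g * a * g⁻¹) (g * b * g⁻¹) (g * m * g⁻¹) (hm.conj g)
    have e : g * b * g⁻¹ * (g * m * g⁻¹) = g * (b * m) * g⁻¹ := by group
    rw [e] at this
    exact this
  | twistB a b k hk =>
    have := Step.twistB (g * a * g⁻¹) (g * b * g⁻¹) (g * k * g⁻¹) (hk.conj g)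
    have e : g * a * g⁻¹ * (g * k * g⁻¹) = g * (a * k) * g⁻¹ := by group
    rw [e] at this
    exact this

theorem Chain.cj {p q : Γ × Γ} (h : Chain p q) (g : Γ) : Chain (cj g p) (cj g q) := by
  induction h with
  | refl => exact Relation.ReflTransGen.refl
  | tail _ hbc ih => exact ih.tail (hbc.cj g)

theorem Step.rot {p q : Γ × Γ} (h : Step p q) : Step (rot q) (rot p) := by
  cases h with
  | twistA a b m hm =>
    -- rot (a, b m) = (m⁻¹ b⁻¹, b m a m⁻¹ b⁻¹), rot (a, b) = (b⁻¹, b a b⁻¹)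
    have e1 : b * m * a * (b * m)⁻¹ = b * a * b⁻¹ := by
      have : b * m * a * (b * m)⁻¹ = b * (m * a) * m⁻¹ * b⁻¹ := by group
      rw [this, hm.1]
      group
    have h1 := Step.twistB ((b * m)⁻¹) (b * a * b⁻¹) (b * m * b⁻¹) (hm.conj b)
    have e2 : (b * m)⁻¹ * (b * m * b⁻¹) = b⁻¹ := by group
    rw [e2] at h1
    change Step ((b * m)⁻¹, b * m * a * (b * m)⁻¹) (b⁻¹, b * a * b⁻¹)
    rw [e1]
    exact h1
  | twistB a b k hk =>
    -- rot (a k, b) = (b⁻¹, b a k b⁻¹), rot (a, b) = (b⁻¹, b a b⁻¹)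
    have e1 : b * (a * k) * b⁻¹ = b * a * b⁻¹ * k := by
      have h2 : k * b⁻¹ = b⁻¹ * k := by
        have := hk.1
        exact (Commute.inv_right (this : Commute k b) : Commute k b⁻¹)
      have : b * (a * k) * b⁻¹ = b * a * (k * b⁻¹) := by group
      rw [this, h2]
      group
    have h1 := Step.twistA (b⁻¹) (b * (a * k) * b⁻¹) (k⁻¹) hk.inv
    have e2 : b * (a * k) * b⁻¹ * k⁻¹ = b * a * b⁻¹ := by rw [e1]; group
    rw [e2] at h1
    exact h1

theorem Chain.rot {p q : Γ × Γ} (h : Chain p q) : Chain (rot q) (rot p) := by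
  induction h with
  | refl => exact Relation.ReflTransGen.refl
  | tail _ hbc ih => exact Relation.ReflTransGen.head hbc.rot ih

/-- The boundary word. -/
def bd (p : Γ × Γ) : Γ := p.1 * p.2 * p.1⁻¹ * p.2⁻¹

theorem Step.bd {p q : Γ × Γ} (h : Step p q) : bd p = bd q := by
  cases h with
  | twistA a b m hm =>
    change a * b * a⁻¹ * b⁻¹ = a * (b * m) * a⁻¹ * (b * m)⁻¹
    have h2 : m * a⁻¹ = a⁻¹ * m := (Commute.inv_right (hm.1 : Commute m a) : Commute m a⁻¹)
    have : a * (b * m) * a⁻¹ * (b * m)⁻¹ = a * b * (m * a⁻¹) * m⁻¹ * b⁻¹ := by group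
    rw [this, h2]
    group
  | twistB a b k hk =>
    change a * b * a⁻¹ * b⁻¹ = a * k * b * (a * k)⁻¹ * b⁻¹
    have : a * k * b * (a * k)⁻¹ * b⁻¹ = a * (k * b) * k⁻¹ * a⁻¹ * b⁻¹ := by group
    rw [this, hk.1]
    group

theorem Chain.bd {p q : Γ × Γ} (h : Chain p q) : TwistChain.bd p = TwistChain.bd q := by
  induction h with
  | refl => rfl
  | tail _ hbc ih => exact ih.trans hbc.bd

theorem rot_rot (p : Γ × Γ) :
    rot (rot p) = (p.2 * p.1⁻¹ * p.2⁻¹, p.2 * p.1 * p.2⁻¹ * (p.2 * p.1)⁻¹) := by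
  apply Prod.ext
  · change (p.2 * p.1 * p.2⁻¹)⁻¹ = _
    group
  · change p.2 * p.1 * p.2⁻¹ * p.2⁻¹ * (p.2 * p.1 * p.2⁻¹)⁻¹ = _
    group

theorem bd_rot (p : Γ × Γ) : bd (rot p) = bd p := by
  change p.2⁻¹ * (p.2 * p.1 * p.2⁻¹) * p.2⁻¹⁻¹ * (p.2 * p.1 * p.2⁻¹)⁻¹ = p.1 * p.2 * p.1⁻¹ * p.2⁻¹
  group

/-- Four quarter turns are conjugation by the inverse of the boundary word. -/
theorem rot_four (p : Γ × Γ) : rot (rot (rot (rot p))) = cj (bd p)⁻¹ p := by
  apply Prod.ext
  · simp only [rot, cj, bd]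
    group
  · simp only [rot, cj, bd]
    group

theorem cj_cj (g h : Γ) (p : Γ × Γ) : cj g (cj h p) = cj (g * h) p := by
  apply Prod.ext
  · simp only [cj]; group
  · simp only [cj]; group

theorem cj_one (p : Γ × Γ) : cj (1 : Γ) p = p := by
  apply Prod.ext <;> simp [cj]

theorem rot_cj (g : Γ) (p : Γ × Γ) : rot (cj g p) = cj g (rot p) := by
  apply Prod.ext
  · simp only [rot, cj]; group
  · simp only [rot, cj]; group

/-- The closing condition: the pair at the top of the chain is the hyperelliptic image of the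
pair at the bottom, conjugated by `t`. -/
structure Closed (p : Γ × Γ) (t : Γ) : Prop where
  chain : Chain p (cj t⁻¹ (rot (rot p)))
  comm : t * bd p = bd p * t

/-- The chain one level lower. -/
theorem Closed.lower {p : Γ × Γ} {t : Γ} (h : Closed p t) :
    Chain (cj (t * bd p) (rot (rot p))) p := by
  have h1 := ((h.chain.rot).rot).cj (t * bd p)
  have e : cj (t * bd p) (rot (rot (cj t⁻¹ (rot (rot p))))) = p := by
    rw [rot_cj, rot_cj, rot_four, cj_cj, cj_cj, h.comm]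
    have : bd p * t * (t⁻¹ * (bd p)⁻¹) = 1 := by group
    have e2 : bd p * t * t⁻¹ * (bd p)⁻¹ = 1 := by group
    first
      | rw [this, cj_one]
      | rw [e2, cj_one]
  rw [e] at h1
  exact h1

/-- The quarter turn of a closed chain is a closed chain. -/
theorem Closed.rot {p : Γ × Γ} {t : Γ} (h : Closed p t) :
    Closed (rot p) (t * TwistChain.bd p)⁻¹ := by
  refine ⟨?_, ?_⟩
  · rw [inv_inv]
    have h1 := h.lower.rot
    rw [rot_cj] at h1
    exact h1
  · rw [bd_rot]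
    have hc : Commute t (TwistChain.bd p) := h.comm
    have : Commute (t * TwistChain.bd p) (TwistChain.bd p) :=
      Commute.mul_left hc (Commute.refl _)
    exact this.inv_left

end Chain

section Local

variable {Ω : Type*} [LinearOrder Ω]

theorem RatPow.ge {m a : Ω ≃o Ω} (h : RatPow m a) {s : Ω} (hs : s ≤ a s) : s ≤ m s := by
  obtain ⟨_, u, v, hu, huv⟩ := h
  apply of_pow_ge hu
  rw [huv]
  exact pow_ge hs v

theorem RatPow.le {m a : Ω ≃o Ω} (h : RatPow m a) {s : Ω} (hs : a s ≤ s) : m s ≤ s := by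
  obtain ⟨_, u, v, hu, huv⟩ := h
  apply of_pow_le hu
  rw [huv]
  exact pow_le hs v

theorem Chain.pp {p q : (Ω ≃o Ω) × (Ω ≃o Ω)} (h : Chain p q) {s : Ω} (h1 : s ≤ p.1 s)
    (h2 : s ≤ p.2 s) : s ≤ q.1 s ∧ s ≤ q.2 s := by
  induction h with
  | refl => exact ⟨h1, h2⟩
  | tail _ hbc ih =>
    cases hbc with
    | twistA a b m hm =>
      exact ⟨ih.1, ih.2.trans (b.monotone (hm.ge ih.1))⟩
    | twistB a b k hk =>
      exact ⟨ih.1.trans (a.monotone (hk.ge ih.2)), ih.2⟩

theorem Chain.nn {p q : (Ω ≃o Ω) × (Ω ≃o Ω)} (h : Chain p q) {s : Ω} (h1 : p.1 s ≤ s)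
    (h2 : p.2 s ≤ s) : q.1 s ≤ s ∧ q.2 s ≤ s := by
  induction h with
  | refl => exact ⟨h1, h2⟩
  | tail _ hbc ih =>
    cases hbc with
    | twistA a b m hm =>
      exact ⟨ih.1, (b.monotone (hm.le ih.1)).trans ih.2⟩
    | twistB a b k hk =>
      exact ⟨(a.monotone (hk.le ih.2)).trans ih.1, ih.2⟩

theorem Chain.pn {p q : (Ω ≃o Ω) × (Ω ≃o Ω)} (h : Chain p q) {s : Ω} (h1 : s ≤ q.1 s)
    (h2 : q.2 s ≤ s) : s ≤ p.1 s ∧ p.2 s ≤ s := by
  induction h using Relation.ReflTransGen.head_induction_on with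
  | refl => exact ⟨h1, h2⟩
  | head hab _ ih =>
    cases hab with
    | twistA a b m hm =>
      refine ⟨ih.1, ?_⟩
      have h3 : (b * m) (m⁻¹ s) ≤ (b * m) s := (b * m).monotone (inv_le_of_ge (hm.ge ih.1))
      rw [RelIso.mul_apply, RelIso.apply_inv_self] at h3
      exact h3.trans ih.2
    | twistB a b k hk =>
      refine ⟨?_, ih.2⟩
      have h3 : (a * k) s ≤ (a * k) (k⁻¹ s) := (a * k).monotone (inv_ge_of_le (hk.le ih.2))
      rw [RelIso.mul_apply (a) (k) (k⁻¹ s), RelIso.apply_inv_self] at h3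
      exact ih.1.trans h3

theorem Chain.np {p q : (Ω ≃o Ω) × (Ω ≃o Ω)} (h : Chain p q) {s : Ω} (h1 : q.1 s ≤ s)
    (h2 : s ≤ q.2 s) : p.1 s ≤ s ∧ s ≤ p.2 s := by
  induction h using Relation.ReflTransGen.head_induction_on with
  | refl => exact ⟨h1, h2⟩
  | head hab _ ih =>
    cases hab with
    | twistA a b m hm =>
      refine ⟨ih.1, ?_⟩
      have h3 : (b * m) s ≤ (b * m) (m⁻¹ s) := (b * m).monotone (inv_ge_of_le (hm.le ih.1))
      rw [RelIso.mul_apply (b) (m) (m⁻¹ s), RelIso.apply_inv_self] at h3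
      exact ih.2.trans h3
    | twistB a b k hk =>
      refine ⟨?_, ih.2⟩
      have h3 : (a * k) (k⁻¹ s) ≤ (a * k) s := (a * k).monotone (inv_le_of_ge (hk.ge ih.2))
      rw [RelIso.mul_apply, RelIso.apply_inv_self] at h3
      exact h3.trans ih.1

end Local

section Map

variable {Γ Γ' : Type*} [Group Γ] [Group Γ']

theorem RatPow.map {m a : Γ} (h : RatPow m a) (f : Γ →* Γ') : RatPow (f m) (f a) := by
  obtain ⟨hc, u, v, hu, huv⟩ := h
  refine ⟨?_, u, v, hu, ?_⟩
  · rw [← map_mul, ← map_mul, hc]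
  · rw [← map_pow, ← map_pow, huv]

/-- The image of a pair under a homomorphism. -/
def mp (f : Γ →* Γ') (p : Γ × Γ) : Γ' × Γ' := (f p.1, f p.2)

theorem Step.map {p q : Γ × Γ} (h : Step p q) (f : Γ →* Γ') : Step (mp f p) (mp f q) := by
  cases h with
  | twistA a b m hm =>
    have := Step.twistA (f a) (f b) (f m) (hm.map f)
    rw [← map_mul] at this
    exact this
  | twistB a b k hk =>
    have := Step.twistB (f a) (f b) (f k) (hk.map f)
    rw [← map_mul] at this
    exact this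

theorem Chain.map {p q : Γ × Γ} (h : Chain p q) (f : Γ →* Γ') : Chain (mp f p) (mp f q) := by
  induction h with
  | refl => exact Relation.ReflTransGen.refl
  | tail _ hbc ih => exact ih.tail (hbc.map f)

theorem mp_rot (f : Γ →* Γ') (p : Γ × Γ) : mp f (rot p) = rot (mp f p) := by
  apply Prod.ext <;> simp [mp, TwistChain.rot]

theorem mp_cj (f : Γ →* Γ') (g : Γ) (p : Γ × Γ) : mp f (cj g p) = cj (f g) (mp f p) := by
  apply Prod.ext <;> simp [mp, TwistChain.cj]

theorem mp_bd (f : Γ →* Γ') (p : Γ × Γ) : f (bd p) = bd (mp f p) := by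
  simp [mp, TwistChain.bd]

theorem Closed.map {p : Γ × Γ} {t : Γ} (h : Closed p t) (f : Γ →* Γ') :
    Closed (mp f p) (f t) := by
  refine ⟨?_, ?_⟩
  · have := h.chain.map f
    rw [mp_cj, mp_rot, mp_rot, map_inv] at this
    exact this
  · rw [← mp_bd, ← map_mul, ← map_mul, h.comm]

end Map

section Fix

variable {Ω : Type*} [LinearOrder Ω]

/-- At every point, `t` and `t'` do not move in the same strict direction. -/
def Opp (t t' : Ω ≃o Ω) : Prop :=
  ∀ s : Ω, (t s ≤ s ∨ t' s ≤ s) ∧ (s ≤ t s ∨ s ≤ t' s)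

/-- Dualisation as a homomorphism. -/
def dualHom : (Ω ≃o Ω) →* (Ωᵒᵈ ≃o Ωᵒᵈ) where
  toFun := OrderIso.dual
  map_one' := rfl
  map_mul' := fun _ _ => rfl

theorem Opp.inv {t t' : Ω ≃o Ω} (h : Opp t t') : Opp t'⁻¹ t⁻¹ := by
  intro s
  refine ⟨?_, ?_⟩
  · rcases (h s).2 with h1 | h1
    · exact Or.inr (inv_le_of_ge h1)
    · exact Or.inl (inv_le_of_ge h1)
  · rcases (h s).1 with h1 | h1
    · exact Or.inr (inv_ge_of_le h1)
    · exact Or.inl (inv_ge_of_le h1)

theorem Closed.fwd {a b t : Ω ≃o Ω} (h : Closed (a, b) t) {s : Ω} (h1 : s ≤ a s)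
    (h2 : s ≤ b s) : b⁻¹ (t s) ≤ a⁻¹ (b⁻¹ (t s)) := by
  have h3 := (h.chain.pp h1 h2).1
  have h4 : s ≤ (t⁻¹ * (b * a⁻¹ * b⁻¹) * t⁻¹⁻¹) s := h3
  rw [inv_inv] at h4
  have h5 : s ≤ t⁻¹ (b (a⁻¹ (b⁻¹ (t s)))) := h4
  have h6 : t s ≤ b (a⁻¹ (b⁻¹ (t s))) := by
    have := t.monotone h5
    rwa [RelIso.apply_inv_self] at this
  have := (b⁻¹).monotone h6
  rwa [RelIso.inv_apply_self] at this

theorem Closed.bwd {a b t : Ω ≃o Ω} (h : Closed (a, b) t) {s : Ω} (h1 : a s ≤ s)
    (h2 : s ≤ b s) : b (a⁻¹ (t⁻¹ s)) ≤ a⁻¹ (t⁻¹ s) := by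
  have h3 := (h.lower.np h1 h2).2
  have e : t * bd (a, b) * (b * a * b⁻¹ * (b * a)⁻¹) * (t * bd (a, b))⁻¹ =
      t * (a * b⁻¹ * a⁻¹) * t⁻¹ := by
    simp only [bd]
    group
  have h4 : s ≤ (t * bd (a, b) * (b * a * b⁻¹ * (b * a)⁻¹) * (t * bd (a, b))⁻¹) s := by
    rw [rot_rot] at h3
    exact h3
  rw [e] at h4
  have h5 : s ≤ t (a (b⁻¹ (a⁻¹ (t⁻¹ s)))) := h4
  have h6 : t⁻¹ s ≤ a (b⁻¹ (a⁻¹ (t⁻¹ s))) := by
    have := (t⁻¹).monotone h5
    rwa [RelIso.inv_apply_self] at this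
  have h7 : a⁻¹ (t⁻¹ s) ≤ b⁻¹ (a⁻¹ (t⁻¹ s)) := by
    have := (a⁻¹).monotone h6
    rwa [RelIso.inv_apply_self] at this
  have := b.monotone h7
  rwa [RelIso.apply_inv_self] at this

theorem not_lt_of_fix {a b t : Ω ≃o Ω} (h : Closed (a, b) t) (ho : Opp t (t * bd (a, b)))
    {s : Ω} (ha : a s = s) : ¬ s < b s := by
  intro hb
  have hai : a⁻¹ s = s := by
    conv_lhs => rw [← ha]
    rw [RelIso.inv_apply_self]
  have h1 := h.fwd ha.ge hb.le
  have h2 := h.bwd ha.le hb.le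
  have hbi : b⁻¹ s < s := inv_lt_of_gt hb
  rcases lt_trichotomy (t s) s with ht | ht | ht
  · -- `t s < s`
    have hti : s < t⁻¹ s := inv_gt_of_lt ht
    have h3 : s ≤ (t * bd (a, b)) s := by
      rcases (ho s).2 with h4 | h4
      · exact absurd ht (not_lt.mpr h4)
      · exact h4
    have h5 : s ≤ t (a (b (a⁻¹ (b⁻¹ s)))) := h3
    have h6 : t⁻¹ s ≤ a (b (a⁻¹ (b⁻¹ s))) := by
      have := (t⁻¹).monotone h5
      rwa [RelIso.inv_apply_self] at this
    have h7 : a⁻¹ (t⁻¹ s) ≤ b (a⁻¹ (b⁻¹ s)) := by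
      have := (a⁻¹).monotone h6
      rwa [RelIso.inv_apply_self] at this
    have h8 : a⁻¹ (t⁻¹ s) ≤ a⁻¹ (b⁻¹ s) := b.le_iff_le.mp (h2.trans h7)
    have h9 : t⁻¹ s ≤ b⁻¹ s := (a⁻¹).le_iff_le.mp h8
    exact absurd (hti.trans_le (h9.trans hbi.le)) (lt_irrefl _)
  · -- `t s = s`
    have hti : t⁻¹ s = s := by
      conv_lhs => rw [← ht]
      rw [RelIso.inv_apply_self]
    rw [hti, hai] at h2
    exact absurd h2 (not_le.mpr hb)
  · -- `s < t s`
    have h3 : (t * bd (a, b)) s ≤ s := by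
      rcases (ho s).1 with h4 | h4
      · exact absurd ht (not_lt.mpr h4)
      · exact h4
    rw [h.comm] at h3
    have h5 : a (b (a⁻¹ (b⁻¹ (t s)))) ≤ s := h3
    have h6 : b (a⁻¹ (b⁻¹ (t s))) ≤ s := by
      have := (a⁻¹).monotone h5
      rwa [RelIso.inv_apply_self, hai] at this
    have h7 : a⁻¹ (b⁻¹ (t s)) ≤ b⁻¹ s := by
      have := (b⁻¹).monotone h6
      rwa [RelIso.inv_apply_self] at this
    have h8 : b⁻¹ s < b⁻¹ (t s) := (b⁻¹).strictMono ht
    exact absurd (h8.trans_le (h1.trans h7)) (lt_irrefl _)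

theorem Opp.dual {t t' : Ω ≃o Ω} (h : Opp t t') : Opp (dualHom t) (dualHom t') := by
  intro s
  exact ⟨(h s).2, (h s).1⟩

theorem fix_of_fix {a b t : Ω ≃o Ω} (h : Closed (a, b) t) (ho : Opp t (t * bd (a, b)))
    {s : Ω} (ha : a s = s) : b s = s := by
  rcases lt_trichotomy (b s) s with h1 | h1 | h1
  · have h2 := h.map (dualHom (Ω := Ω))
    have h3 : Opp (dualHom t) (dualHom t * bd (mp dualHom (a, b))) := by
      rw [← mp_bd, ← map_mul]
      exact ho.dual
    exact absurd h1 (not_lt_of_fix (Ω := Ωᵒᵈ) (a := dualHom a) (b := dualHom b) h2 h3 (s := s) ha)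
  · exact h1
  · exact absurd h1 (not_lt_of_fix h ho ha)

theorem fix_of_fix' {a b t : Ω ≃o Ω} (h : Closed (a, b) t) (ho : Opp t (t * bd (a, b)))
    {s : Ω} (hb : b s = s) : a s = s := by
  have h1 := h.rot
  have hbi : b⁻¹ s = s := by
    conv_lhs => rw [← hb]
    rw [RelIso.inv_apply_self]
  have ho' : Opp ((t * bd (a, b))⁻¹) ((t * bd (a, b))⁻¹ * bd (b⁻¹, b * a * b⁻¹)) := by
    have e : (t * bd (a, b))⁻¹ * bd (b⁻¹, b * a * b⁻¹) = t⁻¹ := by
      have e1 : bd (b⁻¹, b * a * b⁻¹) = bd (a, b) := bd_rot (a, b)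
      rw [e1, h.comm, mul_inv_rev, inv_mul_cancel_right]
    rw [e]
    exact ho.inv
  have h2 := fix_of_fix (a := b⁻¹) (b := b * a * b⁻¹) h1 ho' (s := s) hbi
  have h3 : b (a (b⁻¹ s)) = s := h2
  rw [hbi] at h3
  have h4 := congrArg (⇑(b⁻¹)) h3
  rwa [RelIso.inv_apply_self, hbi] at h4

theorem no_signs_aux {a b t : Ω ≃o Ω} (h : Closed (a, b) t) (s : Ω)
    (ha : (∀ s, s < a s) ∨ (∀ s, a s < s)) (hb : ∀ s, s < b s) : False := by
  rcases ha with ha | ha
  · have h1 := h.fwd (ha s).le (hb s).le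
    exact absurd (inv_lt_of_gt (ha (b⁻¹ (t s)))) (not_lt.mpr h1)
  · have h1 := h.bwd (ha s).le (hb s).le
    exact absurd (hb _) (not_lt.mpr h1)

theorem no_signs {a b t : Ω ≃o Ω} (h : Closed (a, b) t) (s : Ω)
    (ha : (∀ s, s < a s) ∨ (∀ s, a s < s)) (hb : (∀ s, s < b s) ∨ (∀ s, b s < s)) : False := by
  rcases hb with hb | hb
  · exact no_signs_aux h s ha hb
  · have h2 := h.map (dualHom (Ω := Ω))
    exact no_signs_aux (Ω := Ωᵒᵈ) (a := dualHom a) (b := dualHom b) h2 s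
      (ha.symm) hb

/-- The sign rule for the boundary filling `t ^ P * ∂ ^ Q = 1` with `0 ≤ Q ≤ P`, `0 < P`. -/
theorem opp_of_rel {t d : Ω ≃o Ω} (hc : t * d = d * t) {P Q : ℕ} (hP : 0 < P) (hPQ : Q ≤ P)
    (h : t ^ P * d ^ Q = 1) : Opp t (t * d) := by
  rcases Nat.eq_zero_or_pos Q with hQ | hQ
  · subst hQ
    rw [pow_zero, mul_one] at h
    have ht : ∀ s, t s = s := by
      intro s
      apply le_antisymm
      · apply of_pow_le hP
        rw [h]
        exact le_refl s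
      · apply of_pow_ge hP
        rw [h]
        exact le_refl s
    intro s
    exact ⟨Or.inl (ht s).le, Or.inl (ht s).ge⟩
  · have hr := rule_of_rel hc hQ hPQ h
    intro s
    refine ⟨?_, ?_⟩
    · rcases le_total (t s) s with h1 | h1
      · exact Or.inl h1
      · exact Or.inr ((hr s).1 h1)
    · rcases le_total (t s) s with h1 | h1
      · exact Or.inr ((hr s).2 h1)
      · exact Or.inl h1

end Fix

section Final

variable {G : Type*} [Group G]

/-- The main theorem: a group generated by a closed chain of positive rational twists, with the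
boundary filled along a slope `P / Q ∈ [1, ∞]`, is not left-orderable. -/
theorem not_leftOrderable {S : Set G} (hS : Subgroup.closure S = ⊤) {a b t : G}
    (h : Closed (a, b) t) {P Q : ℕ} (hP : 0 < P) (hPQ : Q ≤ P)
    (hrel : t ^ P * bd (a, b) ^ Q = 1)
    (hroot : ∀ H : Subgroup G, a ∈ H → b ∈ H → (∀ (x : G) (n : ℕ), 0 < n → x ^ n ∈ H → x ∈ H) →
      S ⊆ H) : ¬ LeftOrderable G := by
  rintro ⟨hnt, hord, hmul⟩
  have hopp : ∀ {Ω : Type _} [LinearOrder Ω] (f : G →* (Ω ≃o Ω)),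
      Opp (f t) (f t * bd (mp f (a, b))) := by
    intro Ω _ f
    rw [← mp_bd]
    apply opp_of_rel (P := P) (Q := Q)
    · rw [← map_mul, ← map_mul, h.comm]
    · exact hP
    · exact hPQ
    · rw [← map_pow, ← map_pow, ← map_mul, hrel, map_one]
  have hall : ∀ L : LowerSet G, cutHom hmul a L = L → cutHom hmul b L = L →
      ∀ y ∈ S, cutHom hmul y L = L := by
    intro L ha hb y hy
    let H : Subgroup G :=
      { carrier := {g | cutHom hmul g L = L}
        mul_mem' := by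
          intro x y hx hy
          change cutHom hmul (x * y) L = L
          rw [map_mul, RelIso.mul_apply]
          change cutHom hmul y L = L at hy
          rw [hy]
          exact hx
        one_mem' := by
          change cutHom hmul 1 L = L
          rw [map_one]
          rfl
        inv_mem' := by
          intro x hx
          change cutHom hmul x⁻¹ L = L
          change cutHom hmul x L = L at hx
          rw [map_inv]
          conv_lhs => rw [← hx]
          rw [RelIso.inv_apply_self] }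
    refine hroot H ha hb ?_ hy
    intro x n hn hx
    change cutHom hmul x L = L
    change cutHom hmul (x ^ n) L = L at hx
    rw [map_pow] at hx
    exact le_antisymm (of_pow_le hn hx.le) (of_pow_ge hn hx.ge)
  have hcut := h.map (cutHom hmul)
  have sa := sign_const hmul hS (x := a) (by
    intro L hL y hy
    have hb : cutHom hmul b L = L :=
      fix_of_fix (a := cutHom hmul a) (b := cutHom hmul b) hcut (hopp (cutHom hmul)) hL
    exact hall L hL hb y hy)
  have sb := sign_const hmul hS (x := b) (by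
    intro L hL y hy
    have ha : cutHom hmul a L = L :=
      fix_of_fix' (a := cutHom hmul a) (b := cutHom hmul b) hcut (hopp (cutHom hmul)) hL
    exact hall L ha hL y hy)
  exact no_signs (a := leftHom hmul a) (b := leftHom hmul b) (h.map (leftHom hmul)) 1 sa sb

end Final

end Pool.Agent.Helper31.TwistChain
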