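import Mathlib

/-!
Uniqueness sets of compact sets in normed spaces whose unit sphere has few segments.
-/

set_option autoImplicit false

namespace Pool.Agent.Helper31.UniqSets

open Metric Set Topology

variable {𝕜 : Type*} [RCLike 𝕜]

/-- Equality in the triangle inequality in an inner product space. -/
theorem hilbert_eq {H : Type*} [NormedAddCommGroup H] [InnerProductSpace 𝕜 H] {x y : H}
    (h : ‖x + y‖ = ‖x‖ + ‖y‖) : ((‖y‖ : ℝ) : 𝕜) • x = ((‖x‖ : ℝ) : 𝕜) • y := by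
  have h1 : ‖x + y‖ ^ 2 = ‖x‖ ^ 2 + 2 * RCLike.re (inner 𝕜 x y) + ‖y‖ ^ 2 :=
    norm_add_sq (𝕜 := 𝕜) x y
  rw [h] at h1
  have h2 : RCLike.re (inner 𝕜 x y) = ‖x‖ * ‖y‖ := by nlinarith
  have h3 : ‖(inner 𝕜 x y : 𝕜)‖ ≤ ‖x‖ * ‖y‖ := norm_inner_le_norm x y
  have h4 : (inner 𝕜 x y : 𝕜) = ((‖x‖ : ℝ) : 𝕜) * ((‖y‖ : ℝ) : 𝕜) := by
    have h5 : ((RCLike.re (inner 𝕜 x y : 𝕜) : ℝ) : 𝕜) = inner 𝕜 x y :=
      RCLike.re_eq_self_of_le (by rw [h2]; exact h3)
    rw [← h5, h2]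
    push_cast
    rfl
  exact inner_eq_norm_mul_iff.mp h4

/-- The set of points with at most one nearest point in `G`. -/
def uniq {E : Type*} [NormedAddCommGroup E] (G : Set E) : Set E :=
  {x : E | {g : E | g ∈ G ∧ ‖x - g‖ = infDist x G}.Subsingleton}

/-- A finite-dimensional subspace plus a compact set has empty interior in an
infinite-dimensional space: every nonempty open set contains a point outside. -/
theorem exists_not_mem {E : Type*} [NormedAddCommGroup E] [NormedSpace 𝕜 E]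
    (K : Submodule 𝕜 E) [FiniteDimensional 𝕜 K] (hE : ¬ FiniteDimensional 𝕜 E)
    {G : Set E} (hG : IsCompact G) {V : Set E} (hV : IsOpen V) (hne : V.Nonempty) :
    ∃ x ∈ V, ∀ g ∈ G, x - g ∉ K := by
  by_contra hcon
  push Not at hcon
  have _hKc : IsClosed (K : Set E) := K.closed_of_finiteDimensional
  -- image of `V` in the quotient is contained in the image of `G`
  have hsub : K.mkQ '' V ⊆ K.mkQ '' G := by
    rintro _ ⟨x, hx, rfl⟩
    obtain ⟨g, hg, hxg⟩ := hcon x hx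
    refine ⟨g, hg, ?_⟩
    have : K.mkQ (x - g) = 0 := (Submodule.Quotient.mk_eq_zero K).mpr hxg
    rw [map_sub, sub_eq_zero] at this
    exact this.symm
  have hcont : Continuous K.mkQ := continuous_quot_mk
  have hopen : IsOpen (K.mkQ '' V) := K.isOpenMap_mkQ V hV
  have hcomp : IsCompact (K.mkQ '' G) := hG.image hcont
  obtain ⟨x, hx⟩ := hne
  have hmem : K.mkQ '' V ∈ 𝓝 (K.mkQ x) := hopen.mem_nhds ⟨x, hx, rfl⟩
  obtain ⟨r, hr, hball⟩ := Metric.nhds_basis_closedBall.mem_iff.mp hmem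
  have hcb : IsCompact (closedBall (K.mkQ x) r) :=
    hcomp.of_isClosed_subset isClosed_closedBall (hball.trans hsub)
  have hfin : FiniteDimensional 𝕜 (E ⧸ K) := FiniteDimensional.of_isCompact_closedBall 𝕜 hr hcb
  exact hE (Module.Finite.of_submodule_quotient K)

/-- Density of the uniqueness set. -/
theorem dense_uniq {E : Type*} [NormedAddCommGroup E] [NormedSpace 𝕜 E]
    (K : Submodule 𝕜 E) [FiniteDimensional 𝕜 K] (hE : ¬ FiniteDimensional 𝕜 E)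
    (hK : ∀ x y : E, x ∉ K → ‖x + y‖ = ‖x‖ + ‖y‖ → ((‖y‖ : ℝ) : 𝕜) • x = ((‖x‖ : ℝ) : 𝕜) • y)
    {G : Set E} (hG : IsCompact G) : Dense (uniq G) := by
  rw [dense_iff_inter_open]
  intro V hV hne
  rcases G.eq_empty_or_nonempty with rfl | hGne
  · obtain ⟨x, hx⟩ := hne
    refine ⟨x, hx, ?_⟩
    intro g hg
    exact absurd hg.1 (notMem_empty g)
  obtain ⟨x, hxV, hx⟩ := exists_not_mem K hE hG hV hne
  obtain ⟨g₀, hg₀, hdist⟩ := hG.exists_infDist_eq_dist hGne x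
  have hd : infDist x G = ‖x - g₀‖ := by rw [hdist, dist_eq_norm]
  have hxg : x - g₀ ∉ K := hx g₀ hg₀
  have hne0 : x - g₀ ≠ 0 := fun h => hxg (h ▸ K.zero_mem)
  have hpos : 0 < ‖x - g₀‖ := norm_pos_iff.mpr hne0
  -- choose small t
  have hcont : Continuous (fun t : ℝ => x - ((t : ℝ) : 𝕜) • (x - g₀)) := by fun_prop
  have hmem : (fun t : ℝ => x - ((t : ℝ) : 𝕜) • (x - g₀)) ⁻¹' V ∈ 𝓝 (0 : ℝ) := by
    apply hcont.continuousAt.preimage_mem_nhds
    simpa using hV.mem_nhds hxV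
  obtain ⟨ε, hε, hball⟩ := Metric.mem_nhds_iff.mp hmem
  set t : ℝ := min (ε / 2) (1 / 2) with ht
  have ht0 : 0 < t := by positivity
  have ht1 : t < 1 := lt_of_le_of_lt (min_le_right _ _) (by norm_num)
  have htε : t < ε := lt_of_le_of_lt (min_le_left _ _) (by linarith)
  set xt : E := x - ((t : ℝ) : 𝕜) • (x - g₀) with hxt
  have hxtV : xt ∈ V := by
    have : t ∈ ball (0 : ℝ) ε := by
      rw [mem_ball, Real.dist_eq, sub_zero, abs_of_pos ht0]
      exact htε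
    exact hball this
  have hnt : ‖((t : ℝ) : 𝕜)‖ = t := by
    rw [RCLike.norm_ofReal, abs_of_pos ht0]
  have hn1 : ‖x - xt‖ = t * ‖x - g₀‖ := by
    have : x - xt = ((t : ℝ) : 𝕜) • (x - g₀) := by rw [hxt]; abel
    rw [this, norm_smul, hnt]
  have hxtg : xt - g₀ = (((1 - t : ℝ)) : 𝕜) • (x - g₀) := by
    rw [hxt]; push_cast; rw [sub_smul, one_smul]; abel
  have hn2 : ‖xt - g₀‖ = (1 - t) * ‖x - g₀‖ := by
    rw [hxtg, norm_smul, RCLike.norm_ofReal, abs_of_pos (by linarith)]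
  have hinf : infDist xt G = (1 - t) * ‖x - g₀‖ := by
    apply le_antisymm
    · rw [← hn2, ← dist_eq_norm]
      exact infDist_le_dist_of_mem hg₀
    · have : infDist x G ≤ infDist xt G + dist x xt := infDist_le_infDist_add_dist
      rw [hd, dist_eq_norm, hn1] at this
      linarith
  refine ⟨xt, hxtV, ?_⟩
  have key : ∀ g : E, g ∈ G ∧ ‖xt - g‖ = infDist xt G → g = g₀ := by
    rintro g ⟨hg, hgd⟩
    rw [hinf] at hgd
    have hsum : ((t : ℝ) : 𝕜) • (x - g₀) + (xt - g) = x - g := by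
      rw [hxt]; abel
    have hle : ‖x - g₀‖ ≤ ‖x - g‖ := by
      rw [← hd, ← dist_eq_norm]; exact infDist_le_dist_of_mem hg
    have hn3 : ‖((t : ℝ) : 𝕜) • (x - g₀)‖ = t * ‖x - g₀‖ := by rw [norm_smul, hnt]
    have hnotin : ((t : ℝ) : 𝕜) • (x - g₀) ∉ K := by
      intro h
      apply hxg
      have h2 := K.smul_mem (((t : ℝ) : 𝕜)⁻¹) h
      rwa [smul_smul, inv_mul_cancel₀, one_smul] at h2
      exact_mod_cast ht0.ne'
    have heq : ‖((t : ℝ) : 𝕜) • (x - g₀) + (xt - g)‖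
        = ‖((t : ℝ) : 𝕜) • (x - g₀)‖ + ‖xt - g‖ := by
      apply le_antisymm (norm_add_le _ _)
      rw [hsum, hn3, hgd]
      linarith
    have h3 := hK _ _ hnotin heq
    rw [hn3, hgd, smul_smul] at h3
    have hc : ((t * ‖x - g₀‖ : ℝ) : 𝕜) ≠ 0 := by
      exact_mod_cast (mul_pos ht0 hpos).ne'
    have h4 : (((1 - t) * ‖x - g₀‖ : ℝ) : 𝕜) * ((t : ℝ) : 𝕜) =
        ((t * ‖x - g₀‖ : ℝ) : 𝕜) * (((1 - t : ℝ)) : 𝕜) := by
      push_cast; ring
    rw [h4, mul_smul, ← hxtg] at h3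
    have h5 := smul_right_injective E hc h3
    have h6 : g = g₀ := by
      have : xt - g₀ = xt - g := h5
      exact (sub_right_injective this).symm
    exact h6
  intro g hg g' hg'
  rw [key g hg, key g' hg']

/-- For compact `G` the uniqueness set is a `G_δ`. -/
theorem isGδ_uniq {E : Type*} [NormedAddCommGroup E] {G : Set E} (hG : IsCompact G) :
    IsGδ (uniq G) := by
  have hopen : ∀ n : ℕ, IsOpen {x : E | ∀ g ∈ G, ∀ g' ∈ G, ‖x - g‖ = infDist x G →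
      ‖x - g'‖ = infDist x G → ‖g - g'‖ < 1 / ((n : ℝ) + 1)} := by
    intro n
    rw [← isClosed_compl_iff]
    have : CompactSpace G := isCompact_iff_compactSpace.mp hG
    have hcl : IsClosed {p : E × (G × G) | ‖p.1 - p.2.1‖ = infDist p.1 G ∧
        ‖p.1 - p.2.2‖ = infDist p.1 G ∧
        1 / ((n : ℝ) + 1) ≤ ‖(p.2.1 : E) - p.2.2‖} := by
      have hc : Continuous (fun p : E × (G × G) => infDist p.1 G) :=
        (continuous_infDist_pt G).comp continuous_fst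
      refine (isClosed_eq (by fun_prop) hc).inter
        ((isClosed_eq (by fun_prop) hc).inter
          (isClosed_le (f := fun _ : E × (G × G) => 1 / ((n : ℝ) + 1))
            (g := fun p : E × (G × G) => ‖(p.2.1 : E) - p.2.2‖) continuous_const ?_))
      fun_prop
    have hproj := isClosedMap_fst_of_compactSpace (X := E) (Y := G × G) _ hcl
    convert hproj using 1
    ext x
    constructor
    · intro h
      rw [mem_compl_iff, mem_ofPred_eq] at h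
      push Not at h
      obtain ⟨g, hg, g', hg', h1, h2, h3⟩ := h
      exact ⟨(x, (⟨g, hg⟩, ⟨g', hg'⟩)), ⟨h1, h2, h3⟩, rfl⟩
    · rintro ⟨⟨y, ⟨g, hg⟩, ⟨g', hg'⟩⟩, ⟨h1, h2, h3⟩, rfl⟩
      intro h
      exact absurd (h g hg g' hg' h1 h2) (not_lt.mpr h3)
  have heq : uniq G = ⋂ n : ℕ, {x : E | ∀ g ∈ G, ∀ g' ∈ G, ‖x - g‖ = infDist x G →
      ‖x - g'‖ = infDist x G → ‖g - g'‖ < 1 / ((n : ℝ) + 1)} := by
    ext x
    simp only [uniq, mem_ofPred_eq, mem_iInter]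
    constructor
    · intro h n g hg g' hg' h1 h2
      have : g = g' := h ⟨hg, h1⟩ ⟨hg', h2⟩
      rw [this, sub_self, norm_zero]
      positivity
    · intro h g hg g' hg'
      by_contra hne
      have hpos : 0 < ‖g - g'‖ := norm_pos_iff.mpr (sub_ne_zero.mpr hne)
      obtain ⟨n, hn⟩ := exists_nat_one_div_lt hpos
      exact absurd (h n g hg.1 g' hg'.1 hg.2 hg'.2) (not_lt.mpr hn.le)
  rw [heq]
  exact IsGδ.iInter_of_isOpen hopen

/-- Non-meagreness of the uniqueness set. -/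
theorem not_isMeagre_uniq {E : Type*} [NormedAddCommGroup E] [NormedSpace 𝕜 E] [CompleteSpace E]
    (K : Submodule 𝕜 E) [FiniteDimensional 𝕜 K] (hE : ¬ FiniteDimensional 𝕜 E)
    (hK : ∀ x y : E, x ∉ K → ‖x + y‖ = ‖x‖ + ‖y‖ → ((‖y‖ : ℝ) : 𝕜) • x = ((‖x‖ : ℝ) : 𝕜) • y)
    {G : Set E} (hG : IsCompact G) : ¬ IsMeagre (uniq G) := by
  have h1 : uniq G ∈ residual E := residual_of_dense_Gδ (isGδ_uniq hG) (dense_uniq K hE hK hG)
  intro h2
  have h3 : (uniq G) ∩ (uniq G)ᶜ ∈ residual E := Filter.inter_mem h1 h2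
  rw [inter_compl_self] at h3
  have h4 : Dense (∅ : Set E) := dense_of_mem_residual h3
  exact (h4.nonempty).ne_empty rfl

section example_space

variable {H : Type*} [NormedAddCommGroup H] [InnerProductSpace 𝕜 H]

/-- The space of pairs `(u, v)` in `H ⊕₁ H` with `u - v` a multiple of `e`. -/
def Esub (𝕜 : Type*) [RCLike 𝕜] {H : Type*} [NormedAddCommGroup H] [InnerProductSpace 𝕜 H]
    (e : H) : Submodule 𝕜 (WithLp 1 (H × H)) :=
  (Submodule.span 𝕜 {e}).comap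
    ((WithLp.fstL 1 𝕜 H H - WithLp.sndL 1 𝕜 H H : WithLp 1 (H × H) →L[𝕜] H) :
      WithLp 1 (H × H) →ₗ[𝕜] H)

theorem mem_Esub {e : H} {w : WithLp 1 (H × H)} :
    w ∈ Esub 𝕜 e ↔ w.fst - w.snd ∈ Submodule.span 𝕜 {e} := Iff.rfl

theorem isClosed_Esub (e : H) : IsClosed (Esub 𝕜 e : Set (WithLp 1 (H × H))) := by
  have h1 : IsClosed (Submodule.span 𝕜 {e} : Set H) := Submodule.closed_of_finiteDimensional _
  exact h1.preimage
    (WithLp.fstL 1 𝕜 H H - WithLp.sndL 1 𝕜 H H : WithLp 1 (H × H) →L[𝕜] H).continuous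

/-- The first special vector. -/
def v₁ (𝕜 : Type*) [RCLike 𝕜] {H : Type*} [NormedAddCommGroup H] [InnerProductSpace 𝕜 H]
    (e : H) : Esub 𝕜 e :=
  ⟨WithLp.toLp 1 (e, 0), by
    rw [mem_Esub]
    simpa using Submodule.mem_span_singleton_self e⟩

/-- The second special vector. -/
def v₂ (𝕜 : Type*) [RCLike 𝕜] {H : Type*} [NormedAddCommGroup H] [InnerProductSpace 𝕜 H]
    (e : H) : Esub 𝕜 e :=
  ⟨WithLp.toLp 1 (0, e), by
    rw [mem_Esub]
    simpa using Submodule.mem_span_singleton_self e⟩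

/-- The two-dimensional subspace containing all segments of the sphere. -/
def Ksub (𝕜 : Type*) [RCLike 𝕜] {H : Type*} [NormedAddCommGroup H] [InnerProductSpace 𝕜 H]
    (e : H) : Submodule 𝕜 (Esub 𝕜 e) := Submodule.span 𝕜 {v₁ 𝕜 e, v₂ 𝕜 e}

instance (e : H) : FiniteDimensional 𝕜 (Ksub 𝕜 e) := by
  unfold Ksub
  exact FiniteDimensional.span_of_finite 𝕜 (Set.toFinite _)

theorem mem_Ksub {e : H} {w : Esub 𝕜 e} (h : w.1.fst ∈ Submodule.span 𝕜 {e}) :
    w ∈ Ksub 𝕜 e := by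
  have hw : w.1.fst - w.1.snd ∈ Submodule.span 𝕜 {e} := mem_Esub.mp w.2
  have h2 : w.1.snd ∈ Submodule.span 𝕜 {e} := by
    have := Submodule.sub_mem _ h hw
    simpa using this
  obtain ⟨a, ha⟩ := Submodule.mem_span_singleton.mp h
  obtain ⟨b, hb⟩ := Submodule.mem_span_singleton.mp h2
  refine Submodule.mem_span_pair.mpr ⟨a, b, ?_⟩
  apply Subtype.ext
  apply WithLp.ofLp_injective
  apply Prod.ext
  · simp only [v₁, v₂, Submodule.coe_add, Submodule.coe_smul, WithLp.ofLp_add, WithLp.ofLp_smul,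
      Prod.fst_add, Prod.smul_fst, smul_zero, add_zero]
    exact ha
  · simp only [v₁, v₂, Submodule.coe_add, Submodule.coe_smul, WithLp.ofLp_add, WithLp.ofLp_smul,
      Prod.snd_add, Prod.smul_snd, smul_zero, zero_add]
    exact hb

theorem mem_Ksub' {e : H} {w : Esub 𝕜 e} (h : w.1.snd ∈ Submodule.span 𝕜 {e}) :
    w ∈ Ksub 𝕜 e := by
  have hw : w.1.fst - w.1.snd ∈ Submodule.span 𝕜 {e} := mem_Esub.mp w.2
  apply mem_Ksub
  have := Submodule.add_mem _ hw h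
  simpa using this

theorem norm_Esub {e : H} (w : Esub 𝕜 e) : ‖w‖ = ‖w.1.fst‖ + ‖w.1.snd‖ :=
  WithLp.prod_norm_eq_of_L1 w.1

theorem Esub_segments {e : H} (x y : Esub 𝕜 e) (hx : x ∉ Ksub 𝕜 e)
    (h : ‖x + y‖ = ‖x‖ + ‖y‖) : ((‖y‖ : ℝ) : 𝕜) • x = ((‖x‖ : ℝ) : 𝕜) • y := by
  have hu : x.1.fst ∉ Submodule.span 𝕜 {e} := fun h => hx (mem_Ksub h)
  have hv : x.1.snd ∉ Submodule.span 𝕜 {e} := fun h => hx (mem_Ksub' h)
  have hu0 : ‖x.1.fst‖ ≠ 0 := by
    intro h0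
    rw [norm_eq_zero] at h0
    exact hu (h0 ▸ Submodule.zero_mem _)
  have hv0 : ‖x.1.snd‖ ≠ 0 := by
    intro h0
    rw [norm_eq_zero] at h0
    exact hv (h0 ▸ Submodule.zero_mem _)
  have hx1 : x.1.fst - x.1.snd ∈ Submodule.span 𝕜 {e} := mem_Esub.mp x.2
  have hy1 : y.1.fst - y.1.snd ∈ Submodule.span 𝕜 {e} := mem_Esub.mp y.2
  have hxy : ‖x + y‖ = ‖x.1.fst + y.1.fst‖ + ‖x.1.snd + y.1.snd‖ := norm_Esub (x + y)
  rw [hxy, norm_Esub x, norm_Esub y] at h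
  have h1 : ‖x.1.fst + y.1.fst‖ = ‖x.1.fst‖ + ‖y.1.fst‖ := by
    have a1 := norm_add_le x.1.fst y.1.fst
    have a2 := norm_add_le x.1.snd y.1.snd
    linarith
  have h2 : ‖x.1.snd + y.1.snd‖ = ‖x.1.snd‖ + ‖y.1.snd‖ := by
    have a1 := norm_add_le x.1.fst y.1.fst
    have a2 := norm_add_le x.1.snd y.1.snd
    linarith
  have k1 := hilbert_eq (𝕜 := 𝕜) h1
  have k2 := hilbert_eq (𝕜 := 𝕜) h2
  set a := ‖x.1.fst‖ with ha
  set b := ‖x.1.snd‖ with hb
  set a' := ‖y.1.fst‖ with ha'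
  set b' := ‖y.1.snd‖ with hb'
  have haK : ((a : ℝ) : 𝕜) ≠ 0 := by exact_mod_cast hu0
  have hbK : ((b : ℝ) : 𝕜) ≠ 0 := by exact_mod_cast hv0
  -- (b a' - a b') • snd x ∈ span
  have hmem : (((b * a' - a * b' : ℝ)) : 𝕜) • x.1.snd ∈ Submodule.span 𝕜 {e} := by
    have m1 := Submodule.smul_mem _ ((b : ℝ) : 𝕜) (Submodule.smul_mem _ ((a : ℝ) : 𝕜) hy1)
    have m2 := Submodule.smul_mem _ ((b : ℝ) : 𝕜) (Submodule.smul_mem _ ((a' : ℝ) : 𝕜) hx1)
    have m3 := Submodule.sub_mem _ m1 m2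
    have e1 : (((b * a' - a * b' : ℝ)) : 𝕜) • x.1.snd =
        ((b : ℝ) : 𝕜) • ((a : ℝ) : 𝕜) • (y.1.fst - y.1.snd) -
        ((b : ℝ) : 𝕜) • ((a' : ℝ) : 𝕜) • (x.1.fst - x.1.snd) := by
      have : ((b : ℝ) : 𝕜) • ((a : ℝ) : 𝕜) • (y.1.fst - y.1.snd) =
          ((b : ℝ) : 𝕜) • ((a : ℝ) : 𝕜) • y.1.fst -
          ((a : ℝ) : 𝕜) • ((b : ℝ) : 𝕜) • y.1.snd := by
        rw [smul_comm ((a : ℝ) : 𝕜) ((b : ℝ) : 𝕜) y.1.snd, smul_sub, smul_sub]
      rw [this, ← k1, ← k2, smul_sub ((a' : ℝ) : 𝕜), smul_sub ((b : ℝ) : 𝕜)]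
      simp only [smul_smul]
      push_cast
      rw [sub_smul]
      abel
    rw [e1]
    exact m3
  have hzero : b * a' - a * b' = 0 := by
    by_contra hne
    apply hv
    have hneK : (((b * a' - a * b' : ℝ)) : 𝕜) ≠ 0 := by exact_mod_cast hne
    have := Submodule.smul_mem _ ((((b * a' - a * b' : ℝ)) : 𝕜)⁻¹) hmem
    rwa [smul_smul, inv_mul_cancel₀ hneK, one_smul] at this
  have hzK : ((b : ℝ) : 𝕜) * ((a' : ℝ) : 𝕜) = ((a : ℝ) : 𝕜) * ((b' : ℝ) : 𝕜) := by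
    have : b * a' = a * b' := by linarith
    exact_mod_cast this
  rw [norm_Esub x, norm_Esub y]
  apply Subtype.ext
  apply WithLp.ofLp_injective
  apply Prod.ext
  · change (((a' + b' : ℝ)) : 𝕜) • x.1.fst = (((a + b : ℝ)) : 𝕜) • y.1.fst
    apply smul_right_injective H haK
    change ((a : ℝ) : 𝕜) • (((a' + b' : ℝ)) : 𝕜) • x.1.fst =
      ((a : ℝ) : 𝕜) • (((a + b : ℝ)) : 𝕜) • y.1.fst
    rw [smul_comm ((a : ℝ) : 𝕜) _ y.1.fst, ← k1, smul_smul, smul_smul]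
    congr 1
    push_cast
    linear_combination -hzK
  · change (((a' + b' : ℝ)) : 𝕜) • x.1.snd = (((a + b : ℝ)) : 𝕜) • y.1.snd
    apply smul_right_injective H hbK
    change ((b : ℝ) : 𝕜) • (((a' + b' : ℝ)) : 𝕜) • x.1.snd =
      ((b : ℝ) : 𝕜) • (((a + b : ℝ)) : 𝕜) • y.1.snd
    rw [smul_comm ((b : ℝ) : 𝕜) _ y.1.snd, ← k2, smul_smul, smul_smul]
    congr 1
    push_cast
    linear_combination hzK

theorem Esub_infinite (e : H) (hH : ¬ FiniteDimensional 𝕜 H) :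
    ¬ FiniteDimensional 𝕜 (Esub 𝕜 e) := by
  intro hfin
  apply hH
  -- the diagonal embedding
  let f : H →ₗ[𝕜] Esub 𝕜 e :=
    { toFun := fun h => ⟨WithLp.toLp 1 (h, h), by
        rw [mem_Esub]
        simp⟩
      map_add' := fun x y => rfl
      map_smul' := fun c x => rfl }
  have hf : Function.Injective f := by
    intro x y hxy
    have h1 : (WithLp.toLp 1 (x, x) : WithLp 1 (H × H)) = WithLp.toLp 1 (y, y) :=
      congrArg Subtype.val hxy
    have h2 := congrArg WithLp.fst h1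
    simpa using h2
  exact FiniteDimensional.of_injective f hf

theorem Esub_not_strict (e : H) (he : ‖e‖ = 1) :
    ∃ x y : Esub 𝕜 e, ‖x‖ = 1 ∧ ‖y‖ = 1 ∧ x ≠ y ∧ ‖(2⁻¹ : 𝕜) • (x + y)‖ = 1 := by
  refine ⟨v₁ 𝕜 e, v₂ 𝕜 e, ?_, ?_, ?_, ?_⟩
  · rw [norm_Esub]; simp [v₁, he]
  · rw [norm_Esub]; simp [v₂, he]
  · intro h
    have h1 := congrArg (fun w : Esub 𝕜 e => ‖w.1.fst‖) h
    simp [v₁, v₂, he] at h1
  · rw [norm_smul, norm_Esub]
    have h1 : (v₁ 𝕜 e + v₂ 𝕜 e).1.fst = e := by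
      change e + 0 = e
      simp
    have h2 : (v₁ 𝕜 e + v₂ 𝕜 e).1.snd = e := by
      change 0 + e = e
      simp
    rw [h1, h2, he, norm_inv, RCLike.norm_ofNat]
    norm_num

end example_space

/-- The Hilbert space `ℓ²(ℕ, 𝕜)` is infinite-dimensional. -/
theorem l2_infinite (𝕜 : Type*) [RCLike 𝕜] :
    ¬ FiniteDimensional 𝕜 (lp (fun _ : ℕ => 𝕜) 2) := by
  intro hfin
  have h1 := (default : HilbertBasis ℕ 𝕜 (lp (fun _ : ℕ => 𝕜) 2)).orthonormal.linearIndependent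
  have := h1.finite
  exact not_finite ℕ

theorem exists_unit (𝕜 : Type*) [RCLike 𝕜] : ∃ e : lp (fun _ : ℕ => 𝕜) 2, ‖e‖ = 1 :=
  ⟨lp.single 2 0 1, by
    rw [lp.norm_single (by norm_num)]
    simp⟩

end Pool.Agent.Helper31.UniqSets
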